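import Pool.Agent.K1H54.GC.Stm2
import Pool.Agent.H353R2.Z2

/-!
Project GC, piece CNT2: the number of solutions of `m h' ≡ m' h` modulo `q`.
-/

set_option autoImplicit false

namespace Pool.Agent.K1H66.GC

open Finset Pool.Agent.K1H54.GC

/-- integers in `(0, N]` in a residue class -/
theorem ap_card (N q v : ℕ) (hq : 1 ≤ q) :
    (((Ioc 0 N).filter (fun x => x ≡ v [MOD q])).card : ℝ) ≤ (N : ℝ) / q + 1 := by
  have h := Nat.Ioc_filter_modEq_card 0 N (r := q) hq v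
  have h1 : (((Ioc 0 N).filter (fun x => x ≡ v [MOD q])).card : ℚ) ≤ (N : ℚ) / q + 1 := by
    have h2 : ((((Ioc 0 N).filter (fun x => x ≡ v [MOD q])).card : ℤ) : ℚ) =
        ((max (⌊((N : ℚ) - v) / (q : ℚ)⌋ - ⌊(((0 : ℕ) : ℚ) - v) / (q : ℚ)⌋) 0 : ℤ) : ℚ) := by
      rw [h]
    have h3 : (((Ioc 0 N).filter (fun x => x ≡ v [MOD q])).card : ℚ) =
        ((max (⌊((N : ℚ) - v) / (q : ℚ)⌋ - ⌊(((0 : ℕ) : ℚ) - v) / (q : ℚ)⌋) 0 : ℤ) : ℚ) := by
      rw [← h2]; push_cast; rfl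
    rw [h3]
    have hq' : (0 : ℚ) < q := by exact_mod_cast hq
    have h4 : (0 : ℚ) ≤ (N : ℚ) / q + 1 := by positivity
    push_cast
    refine max_le ?_ h4
    have h5 := Int.floor_le (((N : ℚ) - v) / (q : ℚ))
    have h6 := Int.sub_one_lt_floor ((0 - (v : ℚ)) / (q : ℚ))
    have h7 : ((N : ℚ) - v) / (q : ℚ) = (N : ℚ) / q + (0 - (v : ℚ)) / (q : ℚ) := by ring
    linarith
  have h8 : (((((Ioc 0 N).filter (fun x => x ≡ v [MOD q])).card : ℚ)) : ℝ) ≤ (((N : ℚ) / q + 1 : ℚ) : ℝ) := by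
    exact_mod_cast h1
  push_cast at h8
  simpa using h8

theorem t_CNT2 : S_CNT2 := by
  intro η hη
  obtain ⟨C, hC, hd⟩ := H353.divisor_bound_real η hη
  refine ⟨C, hC.le, ?_⟩
  intro q A B j hq hj hB
  have hN : 1 ≤ B * j := Nat.one_le_iff_ne_zero.mpr (by positivity)
  have hNr : (0 : ℝ) < (B : ℝ) * j := by exact_mod_cast hN
  have hN1 : (1 : ℝ) ≤ (B : ℝ) * j := by exact_mod_cast hN
  set T : Finset (ℕ × ℕ) := Ioc A B ×ˢ Icc 1 j with hT
  have hTcard : (T.card : ℝ) ≤ (B : ℝ) * j := by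
    have : T.card ≤ B * j := by
      rw [hT, card_product, Nat.card_Ioc, Nat.card_Icc]
      exact Nat.mul_le_mul (Nat.sub_le _ _) (by omega)
    exact_mod_cast this
  have hTmem : ∀ r ∈ T, 0 < r.1 ∧ r.1 ≤ B ∧ 0 < r.2 ∧ r.2 ≤ j := by
    intro r hr
    rw [hT, mem_product, mem_Ioc, mem_Icc] at hr
    omega
  -- fibres over a product value
  have hfib : ∀ v : ℕ, v ≠ 0 → ∀ F : Finset (ℕ × ℕ), F ⊆ T →
      ((F.filter (fun r => r.1 * r.2 = v)).card : ℝ) ≤ C * (v : ℝ) ^ η := by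
    intro v hv F hF
    refine le_trans ?_ (hd v hv)
    have : (F.filter (fun r => r.1 * r.2 = v)).card ≤ v.divisors.card := by
      refine card_le_card_of_injOn (fun r => r.1) ?_ ?_
      · intro r hr
        have hr' := (mem_filter.mp (mem_coe.mp hr)).2
        exact mem_coe.mpr (Nat.mem_divisors.mpr ⟨⟨r.2, hr'.symm⟩, hv⟩)
      · intro r hr s hs hrs
        have hr' := mem_filter.mp (mem_coe.mp hr)
        have hs' := mem_filter.mp (mem_coe.mp hs)
        have h1 : r.1 = s.1 := hrs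
        have h2 : 0 < r.1 := (hTmem r (hF hr'.1)).1
        have h3 : r.1 * r.2 = r.1 * s.2 := by rw [hr'.2, h1, hs'.2]
        exact Prod.ext h1 (Nat.eq_of_mul_eq_mul_left h2 h3)
    exact_mod_cast this
  -- pairs with product in a residue class
  have hpair : ∀ v0 : ℕ, ((T.filter (fun r => r.1 * r.2 ≡ v0 [MOD q])).card : ℝ) ≤
      ((B : ℝ) * j / q + 1) * (C * ((B : ℝ) * j) ^ η) := by
    intro v0
    set F := T.filter (fun r => r.1 * r.2 ≡ v0 [MOD q]) with hF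
    set V := (Ioc 0 (B * j)).filter (fun x => x ≡ v0 [MOD q]) with hV
    have hmaps : ∀ r ∈ F, r.1 * r.2 ∈ V := by
      intro r hr
      rw [hF, mem_filter] at hr
      have h1 := hTmem r hr.1
      rw [hV, mem_filter, mem_Ioc]
      exact ⟨⟨Nat.mul_pos h1.1 h1.2.2.1, Nat.mul_le_mul h1.2.1 h1.2.2.2⟩, hr.2⟩
    have h1 : F.card = ∑ v ∈ V, (F.filter (fun r => r.1 * r.2 = v)).card :=
      card_eq_sum_card_fiberwise (f := fun r : ℕ × ℕ => r.1 * r.2) hmaps
    have h2 : (F.card : ℝ) = ∑ v ∈ V, ((F.filter (fun r => r.1 * r.2 = v)).card : ℝ) := by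
      rw [h1]; push_cast; rfl
    rw [h2]
    have h3 : ∀ v ∈ V, ((F.filter (fun r => r.1 * r.2 = v)).card : ℝ) ≤ C * ((B : ℝ) * j) ^ η := by
      intro v hv
      rw [hV, mem_filter, mem_Ioc] at hv
      refine (hfib v (by omega) F (filter_subset _ _)).trans ?_
      have : (v : ℝ) ≤ (B : ℝ) * j := by exact_mod_cast hv.1.2
      gcongr
    calc ∑ v ∈ V, ((F.filter (fun r => r.1 * r.2 = v)).card : ℝ)
        ≤ V.card • (C * ((B : ℝ) * j) ^ η) := sum_le_card_nsmul _ _ _ h3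
      _ = (V.card : ℝ) * (C * ((B : ℝ) * j) ^ η) := by rw [nsmul_eq_mul]
      _ ≤ ((B : ℝ) * j / q + 1) * (C * ((B : ℝ) * j) ^ η) := by
          have h4 := ap_card (B * j) q v0 hq
          rw [← hV] at h4
          push_cast at h4
          gcongr
  -- the sum over `(m', h)`
  have hmaps : ∀ p ∈ solq q A B j, ((p.2.1, p.1.2) : ℕ × ℕ) ∈ T := by
    intro p hp
    unfold solq at hp
    rw [mem_filter, mem_product, mem_product, mem_product] at hp
    rw [hT, mem_product]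
    exact ⟨hp.1.2.1, hp.1.1.2⟩
  have h1 : (solq q A B j).card =
      ∑ t ∈ T, ((solq q A B j).filter (fun p => ((p.2.1, p.1.2) : ℕ × ℕ) = t)).card :=
    card_eq_sum_card_fiberwise (f := fun p : (ℕ × ℕ) × (ℕ × ℕ) => ((p.2.1, p.1.2) : ℕ × ℕ)) hmaps
  have h2 : ((solq q A B j).card : ℝ) =
      ∑ t ∈ T, (((solq q A B j).filter (fun p => ((p.2.1, p.1.2) : ℕ × ℕ) = t)).card : ℝ) := by
    rw [h1]; push_cast; rfl
  have h3 : ∀ t ∈ T, (((solq q A B j).filter (fun p => ((p.2.1, p.1.2) : ℕ × ℕ) = t)).card : ℝ) ≤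
      ((B : ℝ) * j / q + 1) * (C * ((B : ℝ) * j) ^ η) := by
    intro t _
    refine le_trans ?_ (hpair (t.1 * t.2))
    have : ((solq q A B j).filter (fun p => ((p.2.1, p.1.2) : ℕ × ℕ) = t)).card ≤
        (T.filter (fun r => r.1 * r.2 ≡ t.1 * t.2 [MOD q])).card := by
      refine card_le_card_of_injOn (fun p => ((p.1.1, p.2.2) : ℕ × ℕ)) ?_ ?_
      · intro p hp
        have hp' := mem_filter.mp (mem_coe.mp hp)
        have h5 := hp'.1
        unfold solq at h5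
        rw [mem_filter, mem_product, mem_product, mem_product] at h5
        refine mem_coe.mpr (mem_filter.mpr ⟨?_, ?_⟩)
        · rw [hT, mem_product]
          exact ⟨h5.1.1.1, h5.1.2.2⟩
        · rw [← hp'.2]
          exact h5.2
      · intro p hp r hr hpr
        have hp' := (mem_filter.mp (mem_coe.mp hp)).2
        have hr' := (mem_filter.mp (mem_coe.mp hr)).2
        have h6 : p.1.1 = r.1.1 ∧ p.2.2 = r.2.2 := by simpa using hpr
        have h7 : p.2.1 = r.2.1 ∧ p.1.2 = r.1.2 := by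
          have := hp'.trans hr'.symm
          simpa using this
        exact Prod.ext (Prod.ext h6.1 h7.2) (Prod.ext h7.1 h6.2)
    exact_mod_cast this
  rw [h2]
  calc ∑ t ∈ T, (((solq q A B j).filter (fun p => ((p.2.1, p.1.2) : ℕ × ℕ) = t)).card : ℝ)
      ≤ T.card • (((B : ℝ) * j / q + 1) * (C * ((B : ℝ) * j) ^ η)) := sum_le_card_nsmul _ _ _ h3
    _ = (T.card : ℝ) * (((B : ℝ) * j / q + 1) * (C * ((B : ℝ) * j) ^ η)) := by rw [nsmul_eq_mul]
    _ ≤ ((B : ℝ) * j) * (((B : ℝ) * j / q + 1) * (C * ((B : ℝ) * j) ^ η)) := by gcongr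
    _ = C * ((B : ℝ) * j) ^ (1 + η) * ((B : ℝ) * j / q + 1) := by
        rw [Real.rpow_add hNr, Real.rpow_one]; ring

end Pool.Agent.K1H66.GC
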